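import Pool.Agent.KT3.StmtsD

set_option autoImplicit false

open Matrix Filter Topology

namespace Pool.Agent.KT3.H45

open Pool.Agent.PFS Pool.Agent.PFJ Pool.Agent.NBT Pool.Agent.KT3

/-- Row ZPC of `Pool/Agent/KT3/StmtsD.lean`: the set of points with an approximate box is closed. -/
theorem zpc (lfm : LfmStmt) : ZpcStmt := by
  intro n C Γ d h3 w hw z y hz hy δ ε M T hε hM hZ
  have hC : PCone C := h3.toPCone
  choose L hLd hLz hLw hLb using hZ
  obtain ⟨φ, L', hφ, hlim, hfr⟩ := Pool.Agent.PFJ.H69.lsc n L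
  have hzφ : Tendsto (fun m => z (φ m)) atTop (𝓝 y) := hz.comp hφ.tendsto_atTop
  have hwcl : ∀ i, w i ∈ closure C := fun i => hw.pes.1.cl i
  refine ⟨L', ?_, ?_, ?_, ?_⟩
  · rw [← hfr 0, hLd]
  · exact hlim.2 id (fun m => z (φ m)) y strictMono_id (fun m => hLz (φ m)) hzφ
  · exact hlim.2 id (fun _ => w 2) (w 2) strictMono_id (fun m => hLw (φ m)) tendsto_const_nhds
  · intro u hu h1 h2
    obtain ⟨um, hum, humt⟩ := hlim.1 u hu
    have hup : PES C (up w y) := ((lfm n C Γ d h3 w hw).2 y hy).1.pes.1
    have hScl : Real.exp (-T) • w 1 ∈ closure C := hC.cl_smul (hwcl 1) (Real.exp_pos _).le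
    have hfS : y + w 2 + Real.exp (-T) • w 1 ∈ C := by
      have h5 := hup.pos ![1, Real.exp (-T), 1] (by
        intro i
        fin_cases i
        · exact one_pos
        · exact Real.exp_pos _
        · exact one_pos)
      rw [Fin.sum_univ_three] at h5
      have h6 : (![1, Real.exp (-T), 1] : Fin 3 → ℝ) 0 • up w y 0 +
          (![1, Real.exp (-T), 1] : Fin 3 → ℝ) 1 • up w y 1 +
          (![1, Real.exp (-T), 1] : Fin 3 → ℝ) 2 • up w y 2 =
          y + w 2 + Real.exp (-T) • w 1 := by
        have e0 : up w y 0 = y := Function.update_self _ _ _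
        have e1 : up w y 1 = w 1 := Function.update_of_ne (by decide) _ _
        have e2 : up w y 2 = w 2 := Function.update_of_ne (by decide) _ _
        rw [e0, e1, e2]
        simp only [Matrix.cons_val_zero, Matrix.cons_val_one, Matrix.cons_val, one_smul]
        abel
      rw [h6] at h5
      exact h5
    generalize hS : Real.exp (-T) • w 1 = S at *
    have key : ∀ η : ℝ, 0 < η → (u + ε • (y + w 2)) + η • ((1 + ε) • (y + w 2)) ∈ closure C := by
      intro η hη
      have hη1 : 0 < (1 + η)⁻¹ := by positivity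
      have hη2 : (1 + η) ≠ 0 := by positivity
      -- the points v_m
      have hvt : Tendsto (fun m => (1 + η)⁻¹ • (um m + η • (z (φ m) + w 2))) atTop
          (𝓝 ((1 + η)⁻¹ • (u + η • (y + w 2)))) :=
        (humt.add ((hzφ.add_const (w 2)).const_smul η)).const_smul ((1 + η)⁻¹)
      have hA : (1 + η)⁻¹ • (u + η • (y + w 2)) + S ∈ C := by
        have h7 : (1 + η)⁻¹ • (u + η • (y + w 2)) + S =
            (1 + η)⁻¹ • ((u + S) + η • (y + w 2 + S)) := by
          have : S = (1 + η)⁻¹ • ((1 + η) • S) := by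
            rw [smul_smul, inv_mul_cancel₀ hη2, one_smul]
          conv_lhs => rw [this]
          rw [← smul_add]
          congr 1
          module
        rw [h7]
        exact hC.smul _ (hC.cl_add' h1 (hC.smul _ hfS η hη)) _ hη1
      have hB : M • (y + w 2 + S) - (1 + η)⁻¹ • (u + η • (y + w 2)) ∈ C := by
        have h7 : M • (y + w 2 + S) - (1 + η)⁻¹ • (u + η • (y + w 2)) =
            (1 + η)⁻¹ • ((M • (y + w 2 + S) - u) + ((M - 1) * η) • (y + w 2 + S) + η • S) := by
          have : M • (y + w 2 + S) = (1 + η)⁻¹ • ((1 + η) • (M • (y + w 2 + S))) := by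
            rw [smul_smul, inv_mul_cancel₀ hη2, one_smul]
          conv_lhs => rw [this]
          rw [← smul_sub]
          congr 1
          module
        rw [h7]
        exact hC.smul _ (hC.add_cl (hC.cl_add' h2 (hC.smul _ hfS _ (mul_pos (by linarith) hη)))
          (hC.cl_smul hScl hη.le)) _ hη1
      have hAm : ∀ᶠ m in atTop, (1 + η)⁻¹ • (um m + η • (z (φ m) + w 2)) + S ∈ C :=
        (hvt.add_const S).eventually (hC.isOpen.mem_nhds hA)
      have hBt : Tendsto (fun m => M • (z (φ m) + w 2 + S) -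
          (1 + η)⁻¹ • (um m + η • (z (φ m) + w 2))) atTop
          (𝓝 (M • (y + w 2 + S) - (1 + η)⁻¹ • (u + η • (y + w 2)))) :=
        (((hzφ.add_const (w 2)).add_const S).const_smul M).sub hvt
      have hBm : ∀ᶠ m in atTop, M • (z (φ m) + w 2 + S) -
          (1 + η)⁻¹ • (um m + η • (z (φ m) + w 2)) ∈ C :=
        hBt.eventually (hC.isOpen.mem_nhds hB)
      have hcm : ∀ᶠ m in atTop, (1 + η)⁻¹ • (um m + η • (z (φ m) + w 2)) +
          ε • (z (φ m) + w 2) ∈ closure C := by
        filter_upwards [hAm, hBm] with m ha hb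
        have hvL : (1 + η)⁻¹ • (um m + η • (z (φ m) + w 2)) ∈ L (φ m) :=
          Submodule.smul_mem _ _ (Submodule.add_mem _ (hum m)
            (Submodule.smul_mem _ _ (Submodule.add_mem _ (hLz (φ m)) (hLw (φ m)))))
        exact hLb (φ m) _ hvL (subset_closure ha) (subset_closure hb)
      have hlimc : (1 + η)⁻¹ • (u + η • (y + w 2)) + ε • (y + w 2) ∈ closure C :=
        isClosed_closure.mem_of_tendsto (hvt.add ((hzφ.add_const (w 2)).const_smul ε)) hcm
      have h8 : (u + ε • (y + w 2)) + η • ((1 + ε) • (y + w 2)) =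
          (1 + η) • ((1 + η)⁻¹ • (u + η • (y + w 2)) + ε • (y + w 2)) := by
        rw [smul_add (1 + η) ((1 + η)⁻¹ • (u + η • (y + w 2))), smul_smul (1 + η) (1 + η)⁻¹,
          mul_inv_cancel₀ hη2, one_smul]
        module
      rw [h8]
      exact hC.cl_smul hlimc (by positivity)
    exact cl_of_eps key

end Pool.Agent.KT3.H45
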